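import Pool.Agent.TH304.MI.Stm

/-!
# Project MI, job 3775: scaling of the perimeter and extraction of the trapping cone
-/

set_option autoImplicit false

open MeasureTheory Set Metric Filter Topology
open scoped ENNReal Real Pointwise

noncomputable section

namespace Pool.Agent.TH89.MI

open Pool.Agent.TH304.MI

variable {b : ℕ}

/-- the scaling as a linear map -/
def scL (b : ℕ) (ε : ℝ) : PP b →ₗ[ℝ] PP b where
  toFun := sc ε
  map_add' x y := by
    ext i
    simp only [sc, PiLp.add_apply]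
    split_ifs <;> ring
  map_smul' a x := by
    ext i
    simp only [sc, PiLp.smul_apply, smul_eq_mul, RingHom.id_apply]
    split_ifs <;> ring

lemma sc_sc (ε δ : ℝ) (h : ε * δ = 1) (p : PP b) : sc ε (sc δ p) = p := by
  ext i
  simp only [sc]
  split_ifs
  · rfl
  · rw [← mul_assoc, h, one_mul]

lemma sc_one (p : PP b) : sc 1 p = p := by
  ext i
  simp only [sc]
  split_ifs
  · rfl
  · rw [one_mul]

/-- the scaling as a linear equivalence -/
def scE (b : ℕ) (ε : ℝ) (h : 0 < ε) : PP b ≃L[ℝ] PP b :=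
  (LinearEquiv.ofLinearMap (scL b ε) (scL b ε⁻¹)
    (LinearMap.ext fun p => sc_sc ε ε⁻¹ (mul_inv_cancel₀ h.ne') p)
    (LinearMap.ext fun p => sc_sc ε⁻¹ ε (inv_mul_cancel₀ h.ne') p)).toContinuousLinearEquiv

lemma scE_apply {ε : ℝ} (h : 0 < ε) (p : PP b) : scE b ε h p = sc ε p := rfl

lemma scE_symm {ε : ℝ} (h : 0 < ε) (p : PP b) : (scE b ε h).symm p = sc ε⁻¹ p := rfl

lemma det_sc (ε : ℝ) : LinearMap.det (scL b ε) = ε ^ b := by
  have h1 : scL b ε = Matrix.toLin (EuclideanSpace.basisFun (Fin (b + 2)) ℝ).toBasis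
      (EuclideanSpace.basisFun (Fin (b + 2)) ℝ).toBasis
      (Matrix.diagonal (fun i : Fin (b + 2) => if (i : ℕ) < 2 then (1 : ℝ) else ε)) := by
    apply (EuclideanSpace.basisFun (Fin (b + 2)) ℝ).toBasis.ext
    intro j
    rw [Matrix.toLin_self]
    simp only [OrthonormalBasis.coe_toBasis, EuclideanSpace.basisFun_apply, Matrix.diagonal_apply]
    ext i
    change sc ε _ i = _
    simp only [sc]
    rw [Finset.sum_eq_single j (by intro k _ hk; rw [if_neg hk, zero_smul]) (by simp), if_pos rfl,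
      PiLp.smul_apply, smul_eq_mul]
    by_cases hij : i = j
    · subst hij
      split_ifs <;> simp
    · have h2 : (EuclideanSpace.single j (1 : ℝ) : PP b) i = 0 := by
        simp [hij]
      rw [h2]
      simp
  rw [h1, LinearMap.det_toLin, Matrix.det_diagonal, Fin.prod_univ_succ, Fin.prod_univ_succ]
  simp

lemma dv_conj (L : PP b ≃L[ℝ] PP b) (φ : PP b → PP b) (x : PP b) :
    dv (fun y => L (φ (L.symm y))) (L x) = dv φ x := by
  unfold dv
  have h1 : fderiv ℝ (fun y => L (φ (L.symm y))) (L x) =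
      (L : PP b →L[ℝ] PP b).comp ((fderiv ℝ φ x).comp (L.symm : PP b →L[ℝ] PP b)) := by
    have h2 : (fun y => L (φ (L.symm y))) = L ∘ (φ ∘ L.symm) := rfl
    rw [h2, ContinuousLinearEquiv.comp_fderiv, ContinuousLinearEquiv.comp_right_fderiv,
      L.symm_apply_apply]
  rw [h1]
  exact LinearMap.trace_conj' (fderiv ℝ φ x).toLinearMap L.toLinearEquiv

lemma int_conj (L : PP b ≃L[ℝ] PP b) (φ : PP b → PP b) (E : Set (PP b)) (hE : MeasurableSet E) :
    ∫ y in L '' E, dv (fun y => L (φ (L.symm y))) y =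
      |LinearMap.det (L.toLinearEquiv : PP b →ₗ[ℝ] PP b)| * ∫ x in E, dv φ x := by
  rw [integral_image_eq_integral_abs_det_fderiv_smul volume hE
    (f' := fun _ => (L : PP b →L[ℝ] PP b)) (fun x _ => L.hasFDerivAt.hasFDerivWithinAt)
    (L.injective.injOn)]
  simp_rw [dv_conj, smul_eq_mul]
  rw [integral_const_mul]
  rfl

lemma tsupport_conj (L : PP b ≃L[ℝ] PP b) (φ : PP b → PP b) :
    tsupport (fun y => L (φ (L.symm y))) = L '' tsupport φ := by
  have h1 : Function.support (fun y => L (φ (L.symm y))) = L '' Function.support φ := by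
    ext y
    simp only [Function.mem_support, ne_eq, mem_image]
    constructor
    · intro h
      refine ⟨L.symm y, fun h2 => h (by rw [h2, map_zero]), L.apply_symm_apply y⟩
    · rintro ⟨x, hx, rfl⟩
      rw [L.symm_apply_apply]
      intro h
      exact hx (by rw [← L.symm_apply_apply (φ x), h, map_zero])
  unfold tsupport
  rw [h1]
  exact (L.toHomeomorph.image_closure _).symm

lemma cd_conj (L : PP b ≃L[ℝ] PP b) {φ : PP b → PP b} (h : ContDiff ℝ 1 φ) :
    ContDiff ℝ 1 (fun y => L (φ (L.symm y))) :=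
  L.contDiff.comp (h.comp L.symm.contDiff)

lemma fld_push {ε : ℝ} (h : 0 < ε) {Ω : Set (PP b)} {φ : PP b → PP b} (hφ : Fld ε Ω φ) :
    Fld 1 (sc ε '' Ω) (fun y => scE b ε h (φ ((scE b ε h).symm y))) := by
  refine ⟨cd_conj _ hφ.cd, ?_, ?_, fun y => ?_⟩
  · unfold HasCompactSupport
    rw [tsupport_conj]
    exact hφ.cs.isCompact.image (scE b ε h).continuous
  · rw [tsupport_conj]
    exact image_mono hφ.sub
  · rw [sc_one]
    exact hφ.bd _

lemma fld_pull {ε : ℝ} (h : 0 < ε) {Ω : Set (PP b)} {ψ : PP b → PP b}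
    (hψ : Fld 1 (sc ε '' Ω) ψ) :
    Fld ε Ω (fun y => (scE b ε h).symm (ψ ((scE b ε h) y))) := by
  have key : tsupport (fun y => (scE b ε h).symm (ψ ((scE b ε h) y))) =
      (scE b ε h).symm '' tsupport ψ := tsupport_conj (scE b ε h).symm ψ
  refine ⟨cd_conj (scE b ε h).symm hψ.cd, ?_, ?_, fun y => ?_⟩
  · unfold HasCompactSupport
    rw [key]
    exact hψ.cs.isCompact.image (scE b ε h).symm.continuous
  · rw [key]
    rintro _ ⟨y, hy, rfl⟩
    obtain ⟨x, hx, rfl⟩ := hψ.sub hy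
    rw [← scE_apply h, (scE b ε h).symm_apply_apply]
    exact hx
  · rw [← scE_apply h, (scE b ε h).apply_symm_apply]
    have := hψ.bd (scE b ε h y)
    rwa [sc_one] at this

lemma det_scE {ε : ℝ} (h : 0 < ε) :
    |LinearMap.det ((scE b ε h).toLinearEquiv : PP b →ₗ[ℝ] PP b)| = ε ^ b := by
  have h1 : ((scE b ε h).toLinearEquiv : PP b →ₗ[ℝ] PP b) = scL b ε := rfl
  rw [h1, det_sc, abs_of_pos (by positivity)]

lemma image_sc {ε : ℝ} (h : 0 < ε) (E : Set (PP b)) : sc ε '' E = scE b ε h '' E := rfl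

theorem t_cv : S_cv := by
  intro b ε h E hE _ C
  have hpos : 0 < ε ^ b := by positivity
  constructor
  · intro hP ψ hψ
    have h1 := hP _ (fld_pull h hψ)
    have h2 := int_conj (scE b ε h) (fun y => (scE b ε h).symm (ψ ((scE b ε h) y))) E hE
    rw [det_scE h] at h2
    simp only [ContinuousLinearEquiv.apply_symm_apply] at h2
    rw [image_sc h, h2]
    exact mul_le_mul_of_nonneg_left h1 hpos.le
  · intro hP φ hφ
    have h1 := hP _ (fld_push h hφ)
    rw [image_sc h, int_conj (scE b ε h) φ E hE, det_scE h] at h1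
    exact le_of_mul_le_mul_left h1 hpos

lemma vol_sc {ε : ℝ} (h : 0 < ε) (E : Set (PP b)) :
    volume (sc ε '' E) = ENNReal.ofReal (ε ^ b) * volume E := by
  have h1 := Measure.addHaar_image_linearMap (volume : Measure (PP b)) (scL b ε) E
  rw [det_sc, abs_of_pos (by positivity)] at h1
  exact h1

lemma cone_int {E : Type} [NormedAddCommGroup E] [NormedSpace ℝ E] (Γ : ConvexCone ℝ E)
    {x : E} (hx : x ∈ interior (Γ : Set E)) {t : ℝ} (ht : 0 < t) :
    t • x ∈ interior (Γ : Set E) := by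
  have h1 : IsOpen (t • interior (Γ : Set E)) := isOpen_interior.smul₀ ht.ne'
  have h2 : t • interior (Γ : Set E) ⊆ Γ := by
    rintro _ ⟨y, hy, rfl⟩
    exact Γ.smul_mem ht (interior_subset hy)
  exact interior_maximal h2 h1 (smul_mem_smul_set hx)

theorem t_tr (hgeo : S_geo) (hcv : S_cv) : S_tr := by
  intro c hc hFH b ε hε E hE hEO hvE hmin
  obtain ⟨go, gc, gb, g0, gs, gt⟩ := hgeo b
  have hpos : 0 < ε ^ b := by positivity
  have hp1 : ENNReal.ofReal (ε ^ b) ≠ 0 := by
    rw [Ne, ENNReal.ofReal_eq_zero, not_le]; exact hpos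
  have hp2 : ENNReal.ofReal (ε ^ b) ≠ ⊤ := ENNReal.ofReal_ne_top
  set D := scE b ε hε with hD
  obtain ⟨Γ, h1, h2, h3⟩ := hFH (b + 2) (sc ε '' Om b) (sc ε '' E)
    (D.toHomeomorph.isOpenMap _ go) ⟨_, mem_image_of_mem _ g0⟩
    (gc.linear_image (scL b ε))
    (D.lipschitz.isBounded_image gb)
    (by
      rintro _ ⟨x, hx, rfl⟩
      exact ⟨-x, gs x hx, map_neg D x⟩)
    (D.toHomeomorph.measurableEmbedding.measurableSet_image.2 hE)
    (image_mono hEO)
    (by rw [vol_sc hε, vol_sc hε, hvE, mul_div_assoc])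
    (by
      intro F hF hFO hvF φ hφ1 hφ2 hφ3 hφ4 e he
      by_contra hcon
      push Not at hcon
      have hFD : sc ε '' (D ⁻¹' F) = F := image_preimage_eq F D.surjective
      have hF0 : D ⁻¹' F ⊆ Om b := by
        intro x hx
        obtain ⟨y, hy, hxy⟩ := hFO hx
        have : y = x := D.injective hxy
        exact this ▸ hy
      have hF0m : MeasurableSet (D ⁻¹' F) := D.continuous.measurable hF
      have hF0v : volume (D ⁻¹' F) = volume E := by
        rw [← hFD, vol_sc hε, vol_sc hε] at hvF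
        exact (ENNReal.mul_right_inj hp1 hp2).1 hvF
      set C := (∫ x in sc ε '' E, dv φ x) - e with hC
      have hPF : PLe 1 (sc ε '' Om b) F C := by
        intro ψ hψ
        have := hcon ψ hψ.cd hψ.cs hψ.sub (fun x => by
          have := hψ.bd x; rwa [sc_one] at this)
        have h5 : (∫ x in F, dv ψ x) + e < ∫ x in sc ε '' E, dv φ x := this
        linarith
      have hC' : C = ε ^ b * (C / ε ^ b) := by field_simp
      rw [← hFD, hC'] at hPF
      have h6 := (hcv b ε hε _ hF0m hF0 _).2 hPF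
      have h7 := (hcv b ε hε _ hE hEO _).1 (hmin _ hF0m hF0 hF0v _ h6)
      rw [← hC'] at h7
      have h8 := h7 φ ⟨hφ1, hφ2, hφ3, fun x => by rw [sc_one]; exact hφ4 x⟩
      linarith)
  refine ⟨{p | p ∈ Om b ∧ sc ε p ∈ interior (Γ : Set (PP b))}, ?_, fun p hp => hp.1, ?_, ?_, ?_, ?_⟩
  · exact go.inter (isOpen_interior.preimage D.continuous)
  · rintro p ⟨hp1, hp2⟩ t ht
    refine ⟨gt p hp1 t ⟨ht.1.le, ht.2.le⟩, ?_⟩
    have : sc ε (t • p) = t • sc ε p := map_smul D t p
    rw [this]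
    exact cone_int Γ hp2 ht.1
  · have hK : volume (sc ε '' {p | p ∈ Om b ∧ sc ε p ∈ interior (Γ : Set (PP b))}) =
        volume (sc ε '' Om b ∩ (Γ : Set (PP b))) := by
      have e1 : sc ε '' {p | p ∈ Om b ∧ sc ε p ∈ interior (Γ : Set (PP b))} =
          sc ε '' Om b ∩ interior (Γ : Set (PP b)) := by
        ext y
        constructor
        · rintro ⟨x, ⟨hx1, hx2⟩, rfl⟩
          exact ⟨⟨x, hx1, rfl⟩, hx2⟩
        · rintro ⟨⟨x, hx1, rfl⟩, hx2⟩
          exact ⟨x, ⟨hx1, hx2⟩, rfl⟩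
      rw [e1]
      apply measure_congr
      have hfr : volume (frontier (Γ : Set (PP b))) = 0 := Γ.convex.addHaar_frontier volume
      refine (ae_eq_refl _).inter (interior_ae_eq_of_null_frontier hfr)
    rw [vol_sc hε] at hK
    rw [← hK, vol_sc hε] at h3
    rw [← ENNReal.mul_le_mul_iff_right hp1 hp2]
    calc _ = ENNReal.ofReal c * (ENNReal.ofReal (ε ^ b) * volume (Om b)) := by ring
      _ ≤ _ := h3
  · have h5 : volume (sc ε '' ({p | p ∈ Om b ∧ sc ε p ∈ interior (Γ : Set (PP b))} \ E)) = 0 := by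
      refine measure_mono_null ?_ h1
      rintro _ ⟨x, ⟨⟨hx1, hx2⟩, hx3⟩, rfl⟩
      refine ⟨⟨⟨x, hx1, rfl⟩, interior_subset hx2⟩, ?_⟩
      rintro ⟨y, hy, hxy⟩
      have : y = x := D.injective hxy
      exact hx3 (this ▸ hy)
    rw [vol_sc hε] at h5
    exact (mul_eq_zero.1 h5).resolve_left hp1
  · have h5 : volume (sc ε '' ({p | -p ∈ {p | p ∈ Om b ∧ sc ε p ∈ interior (Γ : Set (PP b))}} ∩
        E)) = 0 := by
      refine measure_mono_null ?_ h2
      rintro _ ⟨x, ⟨⟨hx1, hx2⟩, hx3⟩, rfl⟩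
      refine ⟨⟨⟨x, hEO hx3, rfl⟩, ?_⟩, ⟨x, hx3, rfl⟩⟩
      have h6 : sc ε (-x) = - sc ε x := map_neg D x
      rw [h6] at hx2
      have h7 : - sc ε x ∈ (Γ : Set (PP b)) := interior_subset hx2
      exact h7
    rw [vol_sc hε] at h5
    exact (mul_eq_zero.1 h5).resolve_left hp1

end Pool.Agent.TH89.MI
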